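import Pool.Agent.Helper96.NSF.Fresh
import Pool.Agent.Helper98.K3.InstSlope
import Pool.Agent.Helper75.ZZ.CSA
import Pool.Agent.Helper36.Eps.Bas
import Pool.Agent.Helper85.UB.SUM

/-! # Packet PR2 -/

open scoped ENNReal
open Finset Filter Topology

namespace Pool.Agent.Helper11.NSF

open Pool.Agent.Helper92.Eps
open Pool.Agent.Helper96.NSF
open Pool.Agent.Helper84.Slope (Std Tub KSLO_stmt)
open Pool.Agent.Helper96.UB (rho)
open Pool.Agent.Helper96.KP (Good S0)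
open Pool.Agent.Helper22.FP (GoodJ)
open Pool.Agent.Helper98.K3 (Fast Slo)
open Pool.Agent.Helper75.ZZ (S_dy S_ne_top S_ne_zero)

theorem ofReal_two_pow (k : ℕ) : (2 : ℝ≥0∞) ^ k = ENNReal.ofReal ((2 : ℝ) ^ k) := by
  rw [ENNReal.ofReal_pow (by norm_num), ENNReal.ofReal_ofNat]

theorem S_cmp {n : ℕ} {A : Alph (Option Blk) n} (hA : Good n A) {β : ℝ} {J : ℕ}
    (hJ : GoodJ β J) {m m' : ℕ} (hm : m ≤ J) (hm' : m' ≤ J) :
    A.S (2 ^ (J - m)) ≤ ENNReal.ofReal ((2 : ℝ) ^ (-(β * (m : ℝ))) * 2 ^ m') *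
      A.S (2 ^ (J - m')) := by
  have h1 : A.S (2 ^ (J - m)) ≤ ENNReal.ofReal ((2 : ℝ) ^ (-(β * (m : ℝ)))) * A.S (2 ^ J) := by
    rw [hA.S_eq, hA.S_eq]
    exact hJ m hm
  have h2 := S_dy (A := A) hA.one.anti (J - m') m'
  rw [Nat.sub_add_cancel hm'] at h2
  refine h1.trans ?_
  rw [ENNReal.ofReal_mul (by positivity), mul_assoc, ← ofReal_two_pow]
  gcongr

theorem HG (hHGT : HGT_stmt) {n : ℕ} {A : Alph (Option Blk) n} (hA : Good n A) {T y : ℕ}
    (hTy : T ≤ y) {c : ℝ} (h : A.S T ≤ ENNReal.ofReal c * A.S (y - T)) :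
    A.GG T (fun l => iv (y < A.H l) 1) ≤ ENNReal.ofReal c := by
  have h1 := (hHGT A hA.one.cal hA.one.ren T y hTy).trans h
  exact (ENNReal.mul_le_mul_iff_left (S_ne_zero hA.one.ren _) (S_ne_top hA.one.ren _)).1 h1

theorem GG_or {B : Type} {D : ℕ} {A : Alph B D} (hc : Calc A) (T : ℕ) (P Q R : List B → Prop)
    (h : ∀ l, R l → P l ∨ Q l) :
    A.GG T (fun l => iv (R l) 1) ≤ A.GG T (fun l => iv (P l) 1) + A.GG T (fun l => iv (Q l) 1) := by
  rw [← hc.GG_addf]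
  apply hc.GG_mono
  intro l _
  by_cases hR : R l
  · rw [Helper36.Eps.iv_pos hR]
    rcases h l hR with hP | hQ
    · rw [Helper36.Eps.iv_pos hP]
      exact le_self_add
    · rw [Helper36.Eps.iv_pos hQ]
      exact le_add_self
  · rw [Helper36.Eps.iv_neg hR]
    exact zero_le

theorem PR2 (hHGT : HGT_stmt) (hTBL : TBL_stmt) (hFSX : FSX_stmt) (hK : KSLO_stmt) :
    PR2_stmt := by
  intro β a n0 bm η hβ hη hbm
  -- a real lower bound for η
  obtain ⟨e, he0, he⟩ : ∃ e : ℝ, 0 < e ∧ ENNReal.ofReal e ≤ η := by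
    rcases eq_or_ne η ⊤ with h | h
    · exact ⟨1, one_pos, by rw [h]; exact le_top⟩
    · exact ⟨η.toReal, ENNReal.toReal_pos hη h, by rw [ENNReal.ofReal_toReal h]⟩
  obtain ⟨af, haf0, haf1, hF⟩ := hFSX β hβ
  obtain ⟨q, hq, hKq⟩ := hK af 1 haf0
  choose n0j hn0j using hKq
  obtain ⟨p, hp⟩ : ∃ p, p = min 1 q := ⟨_, rfl⟩
  have hp0 : 0 < p := by rw [hp]; exact lt_min one_pos hq
  have hp1 : p ≤ 1 := by rw [hp]; exact min_le_left _ _
  have hpq : p ≤ q := by rw [hp]; exact min_le_right _ _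
  -- N
  obtain ⟨N, hN1, hN⟩ : ∃ N : ℕ, 1 ≤ N ∧ 16 * (2 ^ n0 * (1 - p / 2) ^ N) ≤ e := by
    have h1 : Tendsto (fun N : ℕ => 16 * ((2 : ℝ) ^ n0 * (1 - p / 2) ^ N)) atTop (𝓝 0) := by
      have := (tendsto_pow_atTop_nhds_zero_of_lt_one (r := 1 - p / 2) (by linarith)
        (by linarith)).const_mul (16 * (2 : ℝ) ^ n0)
      rw [mul_zero] at this
      refine this.congr fun N => ?_
      ring
    obtain ⟨N, hN⟩ := ((h1.eventually_le_const he0).and (eventually_ge_atTop 1)).exists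
    exact ⟨N, hN.2, hN.1⟩
  obtain ⟨cN, hcN⟩ : ∃ c : ℕ, 16 * N ≤ 2 ^ c := ⟨16 * N, Nat.lt_two_pow_self.le⟩
  obtain ⟨by', hby⟩ : ∃ by' : ℕ, by' = a + cN := ⟨_, rfl⟩
  have hrp : ∀ m : ℕ, (2 : ℝ) ^ (-(β * (m : ℝ))) = ((2 : ℝ) ^ (-β)) ^ m := by
    intro m
    rw [← Real.rpow_natCast, ← Real.rpow_mul (by norm_num)]
    congr 1
    ring
  have hr1 : (2 : ℝ) ^ (-β) < 1 := Real.rpow_lt_one_of_one_lt_of_neg (by norm_num) (by linarith)
  have hr0 : 0 < (2 : ℝ) ^ (-β) := by positivity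
  -- m1
  obtain ⟨m0, hm0⟩ : ∃ m0 : ℕ, ∀ m, m0 ≤ m →
      32 * N * ((2 : ℝ) ^ (-(β * (m : ℝ))) * 2 ^ (by' + 1)) ≤ e := by
    have h1 : Tendsto (fun m : ℕ => 32 * N * ((2 : ℝ) ^ (-(β * (m : ℝ))) * 2 ^ (by' + 1)))
        atTop (𝓝 0) := by
      have := (tendsto_pow_atTop_nhds_zero_of_lt_one hr0.le hr1).const_mul
        (32 * N * (2 : ℝ) ^ (by' + 1))
      rw [mul_zero] at this
      refine this.congr fun m => ?_
      rw [hrp]
      ring
    exact eventually_atTop.1 (h1.eventually_le_const he0)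
  obtain ⟨m1, hm1⟩ : ∃ m1, m1 = max (max bm (by' + 1)) (max m0 2) := ⟨_, rfl⟩
  obtain ⟨b2, hb2, hFj⟩ := hF m1 (by omega)
  -- κ, K
  obtain ⟨κ, hκ⟩ : ∃ κ : ℕ, 16 * (1 / 2 : ℝ) ^ κ ≤ e / 2 := by
    have := (tendsto_pow_atTop_nhds_zero_of_lt_one (r := (1 / 2 : ℝ)) (by norm_num)
        (by norm_num)).const_mul (16 : ℝ)
    rw [mul_zero] at this
    exact (this.eventually_le_const (half_pos he0)).exists
  obtain ⟨K, hKβ⟩ : ∃ K : ℕ, 1 ≤ β * K := by
    obtain ⟨K, hK⟩ := exists_nat_ge (1 / β)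
    refine ⟨K, ?_⟩
    rw [div_le_iff₀ hβ] at hK
    linarith
  have hrho0 : 0 ≤ rho := Pool.Agent.Helper85.UB.rho_nonneg
  have hrho1 : rho < 1 := Pool.Agent.Helper85.UB.rho_le.trans_lt (by norm_num)
  obtain ⟨m, hm⟩ : ∃ m : ℕ, 16 * (1280 * (2 * 2 ^ (K * (b2 + 6 + κ)) *
      (((2 ^ m : ℕ) : ℝ) ^ K * rho ^ (2 ^ m)))) ≤ e / 2 := by
    have h1 := (tendsto_pow_const_mul_const_pow_of_abs_lt_one K (r := rho)
      (by rw [abs_of_nonneg hrho0]; exact hrho1)).comp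
      (tendsto_pow_atTop_atTop_of_one_lt (r := 2) (by norm_num : 1 < 2))
    have h2 := h1.const_mul (16 * (1280 * (2 * (2 : ℝ) ^ (K * (b2 + 6 + κ)))))
    rw [mul_zero] at h2
    obtain ⟨m, hm⟩ := (h2.eventually_le_const (half_pos he0)).exists
    refine ⟨m, le_trans (le_of_eq ?_) hm⟩
    simp only [Function.comp]
    ring
  obtain ⟨bs, hbs⟩ : ∃ bs, bs = m + b2 + 6 := ⟨_, rfl⟩
  obtain ⟨b3, hb3⟩ : ∃ b3, b3 = K * (bs + κ) + bs + 1 := ⟨_, rfl⟩
  have hb3s : bs + 1 ≤ b3 := by rw [hb3]; omega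
  refine ⟨b2, b3, by', N, p, fun J => max (2 ^ J) ((range (J + 1)).sup n0j), by omega, by omega,
    by omega, by omega, hN1, ?_⟩
  intro J n A hA hG hJ hn
  have hcal := hA.one.cal
  have hren := hA.one.ren
  obtain ⟨j, hj1, hj2, hFast⟩ := hFj n A hA J hG (by omega)
  have hjby : j ≤ J - by' := by omega
  have hn1 : 2 ^ J ≤ n := (le_max_left _ _).trans hn
  have hn2 : n0j j ≤ n := by
    refine le_trans ?_ ((le_max_right _ _).trans hn)
    exact Finset.le_sup (f := n0j) (mem_range.2 (by omega))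
  refine ⟨j, hj1, by omega, Nat.pow_le_pow_right (by norm_num) hjby, ?_, ?_, hp0.le, hp1, ?_, ?_,
    ?_⟩
  · have e1 : J - a = cN + (J - by') := by omega
    rw [e1, pow_add]
    exact Nat.mul_le_mul_right _ hcN
  · -- tall groups
    have hle : 2 ^ j ≤ 2 ^ (J - (by' + 1)) := Nat.pow_le_pow_right (by norm_num) (by omega)
    have hdb : 2 ^ (J - by') = 2 * 2 ^ (J - (by' + 1)) := by
      rw [← pow_succ']
      congr 1
      omega
    have h1 : A.S (2 ^ j) ≤ ENNReal.ofReal ((2 : ℝ) ^ (-(β * (m1 : ℝ))) * 2 ^ (by' + 1)) *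
        A.S (2 ^ (J - by') - 2 ^ j) := by
      refine (hren.S_mono _ (2 ^ (J - m1)) (Nat.pow_le_pow_right (by norm_num) (by omega))).trans ?_
      refine (S_cmp hA hG (m := m1) (m' := by' + 1) (by omega) (by omega)).trans ?_
      gcongr
      exact hren.S_mono _ _ (by omega)
    have h2 := HG hHGT hA (T := 2 ^ j) (y := 2 ^ (J - by')) (by omega) h1
    have h3 := hm0 m1 (by omega)
    calc 16 * (2 * (N : ℝ≥0∞) * A.GG (2 ^ j) (fun g => iv (2 ^ (J - by') < A.H g) 1)) ≤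
        16 * (2 * (N : ℝ≥0∞) *
          ENNReal.ofReal ((2 : ℝ) ^ (-(β * (m1 : ℝ))) * 2 ^ (by' + 1))) := by gcongr
      _ = ENNReal.ofReal (32 * N * ((2 : ℝ) ^ (-(β * (m1 : ℝ))) * 2 ^ (by' + 1))) := by
          rw [ENNReal.ofReal_mul (p := 32 * (N : ℝ)) (by positivity),
            ENNReal.ofReal_mul (p := (32 : ℝ)) (by positivity), ENNReal.ofReal_natCast,
            ENNReal.ofReal_ofNat]
          ring
      _ ≤ ENNReal.ofReal e := ENNReal.ofReal_le_ofReal h3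
      _ ≤ η := he
  · -- successes
    have h1 := hn0j j n hn2 A (Pool.Agent.Helper98.K3.std_of hA) hFast
    unfold Slo at h1
    refine (ENNReal.ofReal_le_ofReal hpq).trans (h1.trans ?_)
    apply hcal.GG_mono
    intro l _
    apply Helper36.Eps.iv_mono _ (fun _ => le_rfl)
    rintro ⟨k, hk1, hk2⟩
    refine ⟨k, hk1, ?_⟩
    rw [one_mul] at hk2
    exact hk2.trans (le_abs_self _)
  · exact (ENNReal.ofReal_le_ofReal hN).trans he
  · -- the fresh list
    obtain ⟨T, hT⟩ : ∃ T, T = 2 ^ (J - b3) := ⟨_, rfl⟩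
    obtain ⟨s, hs⟩ : ∃ s, s = 2 ^ (J - bs) := ⟨_, rfl⟩
    have hT1 : 1 ≤ T := by rw [hT]; exact Nat.one_le_two_pow
    have hs1 : 1 ≤ s := by rw [hs]; exact Nat.one_le_two_pow
    have hsT : s = 2 ^ (b3 - bs) * T := by
      rw [hs, hT, ← pow_add]
      congr 1
      omega
    have hTs : T ≤ s := by
      rw [hs, hT]
      exact Nat.pow_le_pow_right (by norm_num) (by omega)
    have h16 : 16 * s ≤ 2 ^ (J - a) := by
      rw [hs, show (16 : ℕ) = 2 ^ 4 by norm_num, ← pow_add]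
      exact Nat.pow_le_pow_right (by norm_num) (by omega)
    have h4 : 4 * s = 2 ^ ((J - bs) + 2) := by rw [hs, pow_add]; ring
    have h4J : 4 * s ≤ 2 ^ J := by
      rw [h4]
      exact Nat.pow_le_pow_right (by norm_num) (by omega)
    have hk8 : 8 * (2 ^ m * s) ≤ 2 ^ (j - 2) := by
      rw [hs, show (8 : ℕ) = 2 ^ 3 by norm_num, ← pow_add, ← pow_add]
      exact Nat.pow_le_pow_right (by norm_num) (by omega)
    have hks : 1 ≤ 2 ^ m * s := Nat.mul_pos (by positivity) hs1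
    have hw : 2 * (2 ^ m * (T + 2 * s) + 1) ≤ 2 ^ (j - 2) := by
      have : 2 ^ m * T ≤ 2 ^ m * s := Nat.mul_le_mul_left _ hTs
      calc 2 * (2 ^ m * (T + 2 * s) + 1) = 2 * (2 ^ m * T + 2 * (2 ^ m * s) + 1) := by ring
        _ ≤ 8 * (2 ^ m * s) := by omega
        _ ≤ _ := hk8
    have hor := GG_or hcal T (fun l => T + s < A.H l)
      (fun l => A.H l ≤ T + s ∧ ¬ Tub ((2 ^ (j - 2) : ℕ) : ℤ) l)
      (fun l => 2 ^ (J - a) < 8 * A.H l ∨ ¬ Tub ((2 ^ (j - 2) : ℕ) : ℤ) l) (by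
        intro l hl
        by_cases h : T + s < A.H l
        · exact Or.inl h
        · refine Or.inr ⟨by omega, ?_⟩
          rcases hl with h' | h'
          · exfalso
            omega
          · exact h')
    -- the first mass
    have hc1 : 16 * ((2 : ℝ) ^ (-(β * (b3 : ℝ))) * 2 ^ bs) ≤ e / 2 := by
      have h1 : (bs : ℝ) + κ ≤ β * b3 := by
        have h2 : (b3 : ℝ) = K * (bs + κ) + bs + 1 := by rw [hb3]; push_cast; ring
        have h3 : (0 : ℝ) ≤ bs + κ := by positivity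
        have h4 : (bs : ℝ) + κ ≤ β * K * (bs + κ) := by nlinarith
        have h5 : β * b3 = β * K * (bs + κ) + β * (bs + 1) := by rw [h2]; ring
        have h6 : 0 ≤ β * ((bs : ℝ) + 1) := by positivity
        linarith
      have h7 : (2 : ℝ) ^ (-(β * (b3 : ℝ))) ≤ (2 : ℝ) ^ (-((bs : ℝ) + κ)) :=
        Real.rpow_le_rpow_of_exponent_le (by norm_num) (by linarith)
      have h8 : (2 : ℝ) ^ (-((bs : ℝ) + κ)) * 2 ^ bs = (1 / 2) ^ κ := by
        rw [← Real.rpow_natCast, ← Real.rpow_add (by norm_num)]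
        have : -((bs : ℝ) + κ) + bs = -(κ : ℝ) := by ring
        rw [this, Real.rpow_neg (by norm_num), Real.rpow_natCast, one_div, inv_pow]
      calc 16 * ((2 : ℝ) ^ (-(β * (b3 : ℝ))) * 2 ^ bs) ≤
          16 * ((2 : ℝ) ^ (-((bs : ℝ) + κ)) * 2 ^ bs) := by gcongr
        _ = 16 * (1 / 2) ^ κ := by rw [h8]
        _ ≤ e / 2 := hκ
    have hM1 : A.GG T (fun l => iv (T + s < A.H l) 1) ≤
        ENNReal.ofReal ((2 : ℝ) ^ (-(β * (b3 : ℝ))) * 2 ^ bs) := by
      apply HG hHGT hA (by omega)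
      rw [Nat.add_sub_cancel_left, hs, hT]
      exact S_cmp hA hG (by omega) (by omega)
    -- the second mass
    have hS4 : A.S (T + 2 * s) ≤ 4 * A.S s := by
      refine (hren.S_mono _ (4 * s) (by omega)).trans ?_
      rw [h4]
      have := S_dy (A := A) hA.one.anti (J - bs) 2
      rw [hs]
      refine this.trans_eq ?_
      norm_num
    have htb := hTBL n A hA T s (2 ^ (j - 2)) (2 ^ m) hT1 hs1 Nat.one_le_two_pow hw (by omega)
    have hM2 : A.GG T (fun l => iv (A.H l ≤ T + s ∧ ¬ Tub ((2 ^ (j - 2) : ℕ) : ℤ) l) 1) ≤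
        ENNReal.ofReal (1280 * (2 ^ (b3 - bs) * rho ^ (2 ^ m))) := by
      have h1 : (T : ℝ≥0∞) * (A.GG T (fun l => iv (A.H l ≤ T + s ∧
          ¬ Tub ((2 ^ (j - 2) : ℕ) : ℤ) l) 1) * A.S s) ≤
          (T : ℝ≥0∞) * (ENNReal.ofReal (1280 * (2 ^ (b3 - bs) * rho ^ (2 ^ m))) * A.S s) := by
        refine htb.trans ?_
        have h2 : ((s : ℕ) : ℝ≥0∞) = 2 ^ (b3 - bs) * (T : ℝ≥0∞) := by
          conv_lhs => rw [hsT]
          push_cast
          ring
        have h3 : ENNReal.ofReal (1280 * (2 ^ (b3 - bs) * rho ^ (2 ^ m))) =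
            8 * 2 ^ (b3 - bs) * ENNReal.ofReal (160 * rho ^ (2 ^ m)) := by
          rw [ofReal_two_pow, show (8 : ℝ≥0∞) = ENNReal.ofReal 8 by
            rw [ENNReal.ofReal_ofNat], ← ENNReal.ofReal_mul (by norm_num),
            ← ENNReal.ofReal_mul (by positivity)]
          congr 1
          ring
        rw [h3]
        calc ENNReal.ofReal (160 * rho ^ (2 ^ m)) * (2 * (s : ℝ≥0∞)) * A.S (T + 2 * s) ≤
            ENNReal.ofReal (160 * rho ^ (2 ^ m)) * (2 * (s : ℝ≥0∞)) * (4 * A.S s) := by gcongr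
          _ = _ := by
            rw [h2]
            ring
      have hT0 : (T : ℝ≥0∞) ≠ 0 := by
        have : T ≠ 0 := by omega
        exact_mod_cast this
      have h5 := (ENNReal.mul_le_mul_iff_right hT0 (ENNReal.natCast_ne_top T)).1 h1
      exact (ENNReal.mul_le_mul_iff_left (S_ne_zero hren _) (S_ne_top hren _)).1 h5
    have hc2 : 16 * (1280 * ((2 : ℝ) ^ (b3 - bs) * rho ^ (2 ^ m))) ≤ e / 2 := by
      refine le_trans (le_of_eq ?_) hm
      have h1 : b3 - bs = m * K + K * (b2 + 6 + κ) + 1 := by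
        rw [hb3, hbs]
        have : K * (m + b2 + 6 + κ) = m * K + K * (b2 + 6 + κ) := by ring
        omega
      rw [h1, pow_succ, pow_add, pow_mul]
      push_cast
      ring
    rw [← hT]
    calc 16 * A.GG T (fun l => iv (2 ^ (J - a) < 8 * A.H l ∨ ¬ Tub ((2 ^ (j - 2) : ℕ) : ℤ) l) 1) ≤
        16 * (ENNReal.ofReal ((2 : ℝ) ^ (-(β * (b3 : ℝ))) * 2 ^ bs) +
          ENNReal.ofReal (1280 * (2 ^ (b3 - bs) * rho ^ (2 ^ m)))) := by
          gcongr
          exact hor.trans (add_le_add hM1 hM2)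
      _ = ENNReal.ofReal (16 * ((2 : ℝ) ^ (-(β * (b3 : ℝ))) * 2 ^ bs) +
          16 * (1280 * (2 ^ (b3 - bs) * rho ^ (2 ^ m)))) := by
          rw [ENNReal.ofReal_add (by positivity) (by positivity),
            ENNReal.ofReal_mul (p := 16) (by norm_num),
            ENNReal.ofReal_mul (p := 16) (q := 1280 * (2 ^ (b3 - bs) * rho ^ (2 ^ m)))
              (by norm_num), ENNReal.ofReal_ofNat]
          ring
      _ ≤ ENNReal.ofReal e := ENNReal.ofReal_le_ofReal (by linarith)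
      _ ≤ η := he

end Pool.Agent.Helper11.NSF
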